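import Mathlib

/-!
# MP_b74c76_co: the maximum order complexity of the Zeckendorf parity sequence

`M(S_Z, N) / N` does not tend to `1 / (1 + φ ^ 2) = 0.27639…`: along the Fibonacci numbers `N` it
is eventually at most `0.262`.

The sequence is coded by the fixed point `v` of `0 → 01, 1 → 2, 2 → 23, 3 → 0`, whose blocks start
at the positions `sh n` (shift of the Zeckendorf representation). A repeated word of `v` with
different successors inside the prefix of length `F_{m+1}` can be desubstituted to one inside the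
prefix of length `F_m`, and the length is divided by `φ` up to a bounded error. So it suffices to
know that inside the prefix of length `F_13 = 233` such words have length at most `55`.
-/

set_option autoImplicit false

namespace Pool.Agent.Results.MP_b74c76_co.NotAsymptotic

/-- The sum of digits of the Zeckendorf expansion of `n`: the number of Fibonacci numbers used. -/
def sZ (n : ℕ) : ℕ := (Nat.zeckendorf n).length

/-- The Zeckendorf parity sequence. -/
def S (n : ℕ) : ZMod 2 := (sZ n : ℕ)

/-- The `N`-th maximum order complexity: the least `k` such that some feedback function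
`f : {0,1}^k → {0,1}` satisfies `s (i + k) = f (s i, …, s (i + k - 1))` for `0 ≤ i ≤ N - k - 1`. -/
noncomputable def M (s : ℕ → ZMod 2) (N : ℕ) : ℕ :=
  sInf {k | ∃ f : (Fin k → ZMod 2) → ZMod 2, ∀ i, i + k + 1 ≤ N → s (i + k) = f fun j => s (i + j)}

/-! ### Zeckendorf representations -/

instance : IsTrans ℕ fun a b => b + 2 ≤ a where
  trans _ _ _ h1 h2 := by omega

theorem rep_iff (l : List ℕ) : l.IsZeckendorfRep ↔
    l.Pairwise (fun a b => b + 2 ≤ a) ∧ ∀ a ∈ l, 2 ≤ a := by
  rw [List.IsZeckendorfRep, List.isChain_iff_pairwise, List.pairwise_append]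
  simp

theorem rep (n : ℕ) : n.zeckendorf.Pairwise (fun a b => b + 2 ≤ a) ∧ ∀ a ∈ n.zeckendorf, 2 ≤ a :=
  (rep_iff _).1 (Nat.isZeckendorfRep_zeckendorf n)

theorem fib_le_of_mem {n e : ℕ} (he : e ∈ n.zeckendorf) : Nat.fib e ≤ n := by
  conv_rhs => rw [← Nat.sum_zeckendorf_fib n]
  exact List.single_le_sum (by simp) _ (List.mem_map_of_mem he)

theorem z_eq {l : List ℕ} {n : ℕ} (h1 : l.Pairwise fun a b => b + 2 ≤ a) (h2 : ∀ a ∈ l, 2 ≤ a)
    (h : (l.map Nat.fib).sum = n) : n.zeckendorf = l := by
  rw [← h]
  exact Nat.zeckendorf_sum_fib ((rep_iff l).2 ⟨h1, h2⟩)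

/-- `1 / φ`. -/
noncomputable def ρ : ℝ := -Real.goldenConj

theorem ρ_sq : ρ ^ 2 = 1 - ρ := by
  have := Real.goldenConj_sq
  unfold ρ
  linear_combination this

theorem ρ_pos : 0 < ρ := by
  have := Real.goldenConj_neg
  unfold ρ
  linarith

theorem ρ_lb : 0.618 < ρ := by
  have h1 := ρ_sq
  have h2 := ρ_pos
  nlinarith

theorem ρ_ub : ρ < 0.6181 := by
  have h1 := ρ_sq
  have h2 := ρ_pos
  nlinarith

theorem ρ_lt : ρ < 1 := by linarith [ρ_ub]

theorem φ_eq : Real.goldenRatio = 1 + ρ := by
  have := Real.goldenRatio_add_goldenConj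
  unfold ρ
  linarith

theorem conj_abs : |Real.goldenConj| = ρ := by
  rw [abs_of_neg Real.goldenConj_neg]
  rfl

theorem δ_bound (l : List ℕ) : l.Pairwise (fun a b => b + 2 ≤ a) → (∀ a ∈ l, 2 ≤ a) →
    ∀ a, 2 ≤ a → (∀ b ∈ l, b + 2 ≤ a) →
    |(l.map fun e => Real.goldenConj ^ e).sum| ≤ ρ - ρ ^ (a - 1) := by
  induction l with
  | nil =>
    intro _ _ a ha _
    simp only [List.map_nil, List.sum_nil, abs_zero, sub_nonneg]
    exact pow_le_of_le_one ρ_pos.le ρ_lt.le (by omega)
  | cons b l ih =>
    intro hl h3 a ha hb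
    rw [List.pairwise_cons] at hl
    obtain ⟨h1, h2⟩ := hl
    have hb2 : 2 ≤ b := h3 b (by simp)
    have hba := hb b (by simp)
    have h4 := ih h2 (fun c hc => h3 c (by simp [hc])) b hb2 h1
    simp only [List.map_cons, List.sum_cons]
    have h5 : |Real.goldenConj ^ b| = ρ ^ b := by rw [abs_pow, conj_abs]
    have h6 := abs_add_le (Real.goldenConj ^ b) ((l.map fun e => Real.goldenConj ^ e).sum)
    have h7 : ρ ^ (b - 1) = ρ ^ b + ρ ^ (b + 1) := by
      obtain ⟨c, rfl⟩ : ∃ c, b = c + 1 := ⟨b - 1, by omega⟩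
      have := ρ_sq
      simp only [Nat.add_sub_cancel]
      linear_combination (-ρ ^ c) * this
    have h8 : ρ ^ (a - 1) ≤ ρ ^ (b + 1) := pow_le_pow_of_le_one ρ_pos.le ρ_lt.le (by omega)
    linarith

theorem sum_shift (l : List ℕ) : (((l.map fun e => Nat.fib (e + 1)).sum : ℕ) : ℝ) -
    Real.goldenRatio * ((l.map Nat.fib).sum : ℕ) = (l.map fun e => Real.goldenConj ^ e).sum := by
  induction l with
  | nil => simp
  | cons a l ih =>
    have := Real.fib_succ_sub_goldenRatio_mul_fib a
    simp only [List.map_cons, List.sum_cons, Nat.cast_add]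
    rw [← ih, ← this]
    ring

/-- The shift of the Zeckendorf representation. -/
def sh (n : ℕ) : ℕ := (n.zeckendorf.map fun e => Nat.fib (e + 1)).sum

theorem sh_bound (n : ℕ) : |(sh n : ℝ) - Real.goldenRatio * n| ≤ ρ := by
  have h1 := sum_shift n.zeckendorf
  rw [Nat.sum_zeckendorf_fib] at h1
  have h3 := δ_bound _ (rep n).1 (rep n).2 (n + 4) (by omega) fun b hb => by
    have := fib_le_of_mem hb
    have := Nat.le_fib_add_one b
    omega
  rw [sh, h1]
  have : 0 < ρ ^ (n + 4 - 1) := pow_pos ρ_pos _
  linarith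

theorem sh_strictMono : StrictMono sh := by
  refine strictMono_nat_of_lt_succ fun n => ?_
  have h1 := abs_le.1 (sh_bound n)
  have h2 := abs_le.1 (sh_bound (n + 1))
  have h3 := φ_eq
  have h4 := ρ_ub
  push_cast at h2
  have : (sh n : ℝ) < sh (n + 1) := by nlinarith [h1.1, h1.2, h2.1, h2.2]
  exact_mod_cast this

theorem z_sh (n : ℕ) : (sh n).zeckendorf = n.zeckendorf.map (· + 1) := by
  refine z_eq (List.Pairwise.map _ (fun a b hab => by omega) (rep n).1) (fun a ha => ?_) ?_
  · rw [List.mem_map] at ha
    obtain ⟨b, hb, rfl⟩ := ha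
    have := (rep n).2 b hb
    omega
  · rw [List.map_map]
    rfl

theorem not_mem_z_sh (n : ℕ) : 2 ∉ (sh n).zeckendorf := by
  rw [z_sh, List.mem_map]
  rintro ⟨a, ha, h⟩
  have := (rep n).2 a ha
  omega

theorem z_sh_one {n : ℕ} (h : 2 ∉ n.zeckendorf) :
    (sh n + 1).zeckendorf = n.zeckendorf.map (· + 1) ++ [2] := by
  have key : ∀ a ∈ n.zeckendorf, 3 ≤ a := by
    intro a ha
    have h1 := (rep n).2 a ha
    rcases Nat.lt_or_ge a 3 with h2 | h2
    · obtain rfl : a = 2 := by omega
      exact absurd ha h
    · exact h2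
  refine z_eq ?_ (fun a ha => ?_) ?_
  · rw [List.pairwise_append]
    refine ⟨List.Pairwise.map _ (fun a b hab => by omega) (rep n).1, by simp, ?_⟩
    intro a ha b hb
    rw [List.mem_map] at ha
    obtain ⟨c, hc, rfl⟩ := ha
    have := key c hc
    rw [List.mem_singleton] at hb
    omega
  · rw [List.mem_append, List.mem_map, List.mem_singleton] at ha
    rcases ha with ⟨b, hb, rfl⟩ | rfl
    · have := key b hb
      omega
    · omega
  · rw [List.map_append, List.sum_append, List.map_map]
    rfl

/-- Every position is the start of a block or the second position of a block of length two. -/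
theorem exists_block (p : ℕ) :
    (∃ n, p = sh n) ∨ ∃ n, 2 ∉ n.zeckendorf ∧ p = sh n + 1 := by
  by_cases h : 2 ∈ p.zeckendorf
  · right
    obtain ⟨s, t, hst⟩ := List.mem_iff_append.1 h
    have hr := rep p
    rw [hst, List.pairwise_append, List.pairwise_cons] at hr
    obtain ⟨⟨h1, ⟨h2, _⟩, h3⟩, h4⟩ := hr
    have ht : t = [] := by
      rw [List.eq_nil_iff_forall_not_mem]
      intro b hb
      have := h2 b hb
      have := h4 b (by simp [hb])
      omega
    subst ht
    have hs : ∀ a ∈ s, 4 ≤ a := fun a ha => h3 a ha 2 (by simp)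
    have hz : ((s.map (· - 1)).map Nat.fib).sum.zeckendorf = s.map (· - 1) := by
      refine z_eq ?_ (fun a ha => ?_) rfl
      · rw [List.pairwise_map]
        refine h1.imp_of_mem fun {a b} ha hb hab => ?_
        have := hs a ha
        have := hs b hb
        omega
      · rw [List.mem_map] at ha
        obtain ⟨b, hb, rfl⟩ := ha
        have := hs b hb
        omega
    refine ⟨((s.map (· - 1)).map Nat.fib).sum, ?_, ?_⟩
    · rw [hz, List.mem_map]
      rintro ⟨a, ha, h5⟩
      have := hs a ha
      omega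
    · rw [sh, hz, List.map_map]
      have e : s.map ((fun e => Nat.fib (e + 1)) ∘ (· - 1)) = s.map Nat.fib := by
        refine List.map_congr_left fun a ha => ?_
        have := hs a ha
        simp only [Function.comp]
        congr 1
        omega
      rw [e]
      conv_lhs => rw [← Nat.sum_zeckendorf_fib p, hst]
      simp
  · left
    have hs : ∀ a ∈ p.zeckendorf, 3 ≤ a := by
      intro a ha
      have h1 := (rep p).2 a ha
      rcases Nat.lt_or_ge a 3 with h2 | h2
      · obtain rfl : a = 2 := by omega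
        exact absurd ha h
      · exact h2
    have hz : ((p.zeckendorf.map (· - 1)).map Nat.fib).sum.zeckendorf =
        p.zeckendorf.map (· - 1) := by
      refine z_eq ?_ (fun a ha => ?_) rfl
      · rw [List.pairwise_map]
        refine (rep p).1.imp_of_mem fun {a b} ha hb hab => ?_
        have := hs a ha
        have := hs b hb
        omega
      · rw [List.mem_map] at ha
        obtain ⟨b, hb, rfl⟩ := ha
        have := hs b hb
        omega
    refine ⟨((p.zeckendorf.map (· - 1)).map Nat.fib).sum, ?_⟩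
    rw [sh, hz, List.map_map]
    have e : p.zeckendorf.map ((fun e => Nat.fib (e + 1)) ∘ (· - 1)) =
        p.zeckendorf.map Nat.fib := by
      refine List.map_congr_left fun a ha => ?_
      have := hs a ha
      simp only [Function.comp]
      congr 1
      omega
    rw [e, Nat.sum_zeckendorf_fib]

theorem sh_succ_of_mem {n : ℕ} (h : 2 ∈ n.zeckendorf) : sh (n + 1) = sh n + 1 := by
  have h1 := sh_strictMono (Nat.lt_succ_self n)
  rcases exists_block (sh n + 1) with ⟨m, hm⟩ | ⟨m, hm, hm2⟩
  · have h2 : n < m := sh_strictMono.lt_iff_lt.1 (by omega)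
    have h3 : sh (n + 1) ≤ sh m := sh_strictMono.monotone h2
    simp only [Nat.succ_eq_add_one] at h1
    omega
  · have h2 : m = n := sh_strictMono.injective (by omega)
    rw [h2] at hm
    exact absurd h hm

theorem sh_succ_of_not_mem {n : ℕ} (h : 2 ∉ n.zeckendorf) : sh (n + 1) = sh n + 2 := by
  have h1 := sh_strictMono (Nat.lt_succ_self n)
  simp only [Nat.succ_eq_add_one] at h1
  have h4 : sh (n + 1) ≠ sh n + 1 := by
    intro h5
    have h6 := not_mem_z_sh (n + 1)
    rw [h5, z_sh_one h] at h6
    simp at h6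
  rcases exists_block (sh n + 2) with ⟨m, hm⟩ | ⟨m, hm, hm2⟩
  · have h2 : n < m := sh_strictMono.lt_iff_lt.1 (by omega)
    have h3 : sh (n + 1) ≤ sh m := sh_strictMono.monotone h2
    omega
  · exfalso
    have h6 := not_mem_z_sh m
    rw [show sh m = sh n + 1 by omega, z_sh_one h] at h6
    simp at h6

theorem sh_fib (m : ℕ) (hm : 2 ≤ m) : sh (Nat.fib m) = Nat.fib (m + 1) := by
  have : (Nat.fib m).zeckendorf = [m] := z_eq (by simp) (by simpa using hm) (by simp)
  rw [sh, this]
  simp

/-! ### The morphic word -/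

/-- Parity of the digit sum and last digit, as a letter. -/
def v (n : ℕ) : Fin 4 :=
  if 2 ∈ n.zeckendorf then (if sZ n % 2 = 0 then 3 else 1) else (if sZ n % 2 = 0 then 0 else 2)

/-- The morphism. -/
def h (a : Fin 4) : List (Fin 4) :=
  match a with
  | 0 => [0, 1]
  | 1 => [2]
  | 2 => [2, 3]
  | 3 => [0]

theorem sZ_sh (n : ℕ) : sZ (sh n) = sZ n := by
  unfold sZ
  rw [z_sh, List.length_map]

theorem sZ_sh_one {n : ℕ} (hn : 2 ∉ n.zeckendorf) : sZ (sh n + 1) = sZ n + 1 := by
  unfold sZ
  rw [z_sh_one hn]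
  simp

theorem h_v_of_mem {n : ℕ} (hn : 2 ∈ n.zeckendorf) : h (v n) = [v (sh n)] := by
  have h1 := not_mem_z_sh n
  unfold v
  rw [if_pos hn, if_neg h1, sZ_sh]
  split_ifs <;> rfl

theorem h_v_of_not_mem {n : ℕ} (hn : 2 ∉ n.zeckendorf) : h (v n) = [v (sh n), v (sh n + 1)] := by
  have h1 := not_mem_z_sh n
  have h2 : 2 ∈ (sh n + 1).zeckendorf := by
    rw [z_sh_one hn]
    simp
  unfold v
  rw [if_neg hn, if_neg h1, if_pos h2, sZ_sh, sZ_sh_one hn]
  by_cases h3 : sZ n % 2 = 0
  · rw [if_pos h3, if_neg (by omega)]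
    rfl
  · rw [if_neg h3, if_pos (by omega)]
    rfl

theorem mem_iff (n : ℕ) : 2 ∈ n.zeckendorf ↔ v n = 1 ∨ v n = 3 := by
  unfold v
  split_ifs with h1 h2 h2 <;> simp [h1]

/-- The window of length `m` at `n`. -/
def W (n m : ℕ) : List (Fin 4) := (List.range m).map fun t => v (n + t)

theorem W_length (n m : ℕ) : (W n m).length = m := by simp [W]

theorem W_succ (n m : ℕ) : W n (m + 1) = W n m ++ [v (n + m)] := by
  simp [W, List.range_succ]

theorem W_add (n m k : ℕ) : W n (m + k) = W n m ++ W (n + m) k := by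
  induction k with
  | zero => simp [W]
  | succ k ih => rw [← add_assoc, W_succ, ih, W_succ, List.append_assoc, add_assoc]

theorem flat_W (n m : ℕ) : (W n m).flatMap h = W (sh n) (sh (n + m) - sh n) := by
  induction m with
  | zero => simp [W]
  | succ m ih =>
    have hle : sh n ≤ sh (n + m) := sh_strictMono.monotone (by omega)
    rw [W_succ, List.flatMap_append, ih]
    simp only [List.flatMap_cons, List.flatMap_nil, List.append_nil]
    by_cases hm : 2 ∈ (n + m).zeckendorf
    · rw [h_v_of_mem hm, ← add_assoc, sh_succ_of_mem hm,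
        show sh (n + m) + 1 - sh n = sh (n + m) - sh n + 1 by omega, W_succ,
        show sh n + (sh (n + m) - sh n) = sh (n + m) by omega]
    · rw [h_v_of_not_mem hm, ← add_assoc, sh_succ_of_not_mem hm,
        show sh (n + m) + 2 - sh n = sh (n + m) - sh n + 1 + 1 by omega, W_succ, W_succ,
        show sh n + (sh (n + m) - sh n) = sh (n + m) by omega,
        show sh n + (sh (n + m) - sh n + 1) = sh (n + m) + 1 by omega]
      simp

theorem sh_zero : sh 0 = 0 := by simp [sh]

theorem v_zero : v 0 = 0 := by simp [v, sZ]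

theorem W_iter (k : ℕ) : W 0 (Nat.fib (k + 2)) = (fun l => List.flatMap h l)^[k] [0] := by
  induction k with
  | zero => simp [W, v_zero]
  | succ k ih =>
    rw [Function.iterate_succ_apply', ← ih, flat_W, sh_zero, Nat.sub_zero, zero_add,
      sh_fib _ (by omega)]

/-! ### Recognizability -/

/-- The factors of length five. -/
def fac5 : List (List (Fin 4)) :=
  [[0, 0, 1, 0, 1], [0, 0, 1, 2, 2], [0, 0, 1, 2, 3], [0, 1, 0, 1, 2], [0, 1, 2, 0, 1],
    [0, 1, 2, 2, 3], [0, 1, 2, 3, 0], [0, 2, 3, 0, 0], [1, 0, 1, 2, 0], [1, 0, 1, 2, 2],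
    [1, 2, 0, 1, 2], [1, 2, 2, 3, 0], [1, 2, 2, 3, 2], [1, 2, 3, 0, 0], [2, 0, 1, 2, 2],
    [2, 2, 3, 0, 0], [2, 2, 3, 0, 1], [2, 2, 3, 2, 3], [2, 3, 0, 0, 1], [2, 3, 0, 1, 2],
    [2, 3, 0, 2, 3], [2, 3, 2, 3, 0], [3, 0, 0, 1, 0], [3, 0, 0, 1, 2], [3, 0, 1, 2, 2],
    [3, 0, 2, 3, 0], [3, 2, 3, 0, 0], [3, 2, 3, 0, 2]]

theorem fac5_closed : ∀ w ∈ fac5, (w.flatMap h).take 5 ∈ fac5 ∧ 6 ≤ (w.flatMap h).length ∧
    (w.head? = some 0 ∨ w.head? = some 2 → ((w.flatMap h).drop 1).take 5 ∈ fac5) := by
  decide +kernel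

theorem W_take (n m k : ℕ) (hk : k ≤ m) : (W n m).take k = W n k := by
  obtain ⟨r, rfl⟩ : ∃ r, m = k + r := ⟨m - k, by omega⟩
  rw [W_add, List.take_append_of_le_length (by rw [W_length]), List.take_of_length_le
    (by rw [W_length])]

theorem W_drop (n m : ℕ) : (W n (1 + m)).drop 1 = W (n + 1) m := by
  rw [W_add, List.drop_append_of_le_length (by rw [W_length]), List.drop_of_length_le
    (by rw [W_length]), List.nil_append]

theorem mem_fac5 (p : ℕ) : W p 5 ∈ fac5 := by
  induction p using Nat.strong_induction_on with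
  | _ p ih =>
    rcases Nat.eq_zero_or_pos p with rfl | hp
    · have h1 := W_iter 3
      rw [show Nat.fib (3 + 2) = 5 by decide] at h1
      rw [h1]
      decide +kernel
    · have hsh : ∀ n, 1 ≤ n → n < sh n := by
        intro n hn
        have h0 : ∀ n, n ≤ sh n := fun n => sh_strictMono.le_apply
        have h1 : sh 1 = 2 := sh_fib 2 le_rfl
        induction n with
        | zero => omega
        | succ n ihn =>
          rcases Nat.eq_zero_or_pos n with rfl | h2
          · rw [zero_add, h1]
            omega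
          · have := ihn h2
            have := sh_strictMono (Nat.lt_succ_self n)
            simp only [Nat.succ_eq_add_one] at this
            omega
      rcases exists_block p with ⟨n, rfl⟩ | ⟨n, hn, rfl⟩
      · have hlt : n < sh n := by
          rcases Nat.eq_zero_or_pos n with rfl | h2
          · rw [sh_zero] at hp
            omega
          · exact hsh n h2
        obtain ⟨h1, h2, _⟩ := fac5_closed _ (ih n hlt)
        rw [flat_W] at h1 h2
        rw [W_length] at h2
        rwa [W_take _ _ _ (by omega)] at h1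
      · have hlt : n < sh n + 1 := by
          have : n ≤ sh n := sh_strictMono.le_apply
          omega
        obtain ⟨_, h2, h3⟩ := fac5_closed _ (ih n hlt)
        have hhead : (W n 5).head? = some (v n) := by
          rw [show 5 = 1 + 4 by norm_num, W_add]
          simp [W]
        have h4 : v n = 0 ∨ v n = 2 := by
          rw [mem_iff] at hn
          generalize v n = a at hn
          revert hn
          revert a
          decide
        have h5 := h3 (by rw [hhead]; rcases h4 with h4 | h4 <;> simp [h4])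
        rw [flat_W] at h5 h2
        rw [W_length] at h2
        obtain ⟨r, hr⟩ : ∃ r, sh (n + 5) - sh n = 1 + r := ⟨sh (n + 5) - sh n - 1, by omega⟩
        rw [hr, W_drop, W_take _ _ _ (by omega)] at h5
        exact h5

/-- The parity of a letter. -/
def par (a : Fin 4) : ZMod 2 := if a = 1 ∨ a = 2 then 1 else 0

theorem S_eq (n : ℕ) : S n = par (v n) := by
  unfold S v par
  have h1 : ((sZ n : ℕ) : ZMod 2) = ((sZ n % 2 : ℕ) : ZMod 2) := by
    rw [ZMod.natCast_mod]
  rw [h1]
  rcases Nat.mod_two_eq_zero_or_one (sZ n) with h2 | h2 <;> rw [h2] <;> split_ifs <;>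
    simp_all

theorem fac5_rec : ∀ w₁ ∈ fac5, ∀ w₂ ∈ fac5, w₁.map par = w₂.map par →
    w₁.getLast? = w₂.getLast? := by
  decide +kernel

theorem recog {i j : ℕ} (hij : ∀ t < 5, S (i + t) = S (j + t)) : v (i + 4) = v (j + 4) := by
  have h1 : (W i 5).map par = (W j 5).map par := by
    unfold W
    rw [List.map_map, List.map_map]
    refine List.map_congr_left fun t ht => ?_
    simp only [Function.comp]
    rw [← S_eq, ← S_eq]
    exact hij t (List.mem_range.1 ht)
  have h2 := fac5_rec _ (mem_fac5 i) _ (mem_fac5 j) h1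
  rw [show 5 = 4 + 1 by norm_num, W_succ i 4, W_succ j 4, List.getLast?_append,
    List.getLast?_append] at h2
  simpa using h2

/-! ### The base case -/

/-- `l` and `m` do not have a first difference after `56` or more agreements, the first `n`
agreements having been seen already. -/
def chk : List (Fin 4) → List (Fin 4) → ℕ → Bool
  | x :: l, y :: m, n => if x = y then chk l m (n + 1) else decide (n < 56)
  | _, _, _ => true

/-- All pairs of suffixes. -/
def chkTails (l : List (Fin 4)) : List (Fin 4) → Bool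
  | [] => true
  | y :: m => chk l (y :: m) 0 && chkTails l m

/-- All pairs of suffixes. -/
def chkAll : List (Fin 4) → Bool
  | [] => true
  | x :: l => chkTails (x :: l) l && chkAll l

theorem chk_spec {l m : List (Fin 4)} {n k : ℕ} (hc : chk l m n = true) (hl : k < l.length)
    (hm : k < m.length) (heq : ∀ t (ht : t < k), l[t]'(by omega) = m[t]'(by omega))
    (hne : l[k] ≠ m[k]) : n + k < 56 := by
  induction k generalizing l m n with
  | zero =>
    cases l with
    | nil => simp at hl
    | cons x l =>
      cases m with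
      | nil => simp at hm
      | cons y m =>
        simp only [List.getElem_cons_zero] at hne
        simp only [chk, if_neg hne, decide_eq_true_eq] at hc
        exact hc
  | succ k ih =>
    cases l with
    | nil => simp at hl
    | cons x l =>
      cases m with
      | nil => simp at hm
      | cons y m =>
        have h0 := heq 0 (by omega)
        simp only [List.getElem_cons_zero] at h0
        simp only [chk, if_pos h0] at hc
        simp only [List.getElem_cons_succ] at hne
        have := ih hc (by simpa using hl) (by simpa using hm) (fun t ht => by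
          have := heq (t + 1) (by omega)
          simpa using this) hne
        omega

theorem chkTails_spec {l m : List (Fin 4)} (hc : chkTails l m = true) (r : ℕ)
    (hr : r < m.length) : chk l (m.drop r) 0 = true := by
  induction m generalizing r with
  | nil => simp at hr
  | cons y m ih =>
    simp only [chkTails, Bool.and_eq_true] at hc
    cases r with
    | zero => exact hc.1
    | succ r =>
      rw [List.drop_succ_cons]
      exact ih hc.2 r (by simpa using hr)

theorem chkAll_spec {l : List (Fin 4)} (hc : chkAll l = true) {i j : ℕ} (hij : i < j)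
    (hj : j < l.length) : chk (l.drop i) (l.drop j) 0 = true := by
  induction l generalizing i j with
  | nil => simp at hj
  | cons x l ih =>
    simp only [chkAll, Bool.and_eq_true] at hc
    obtain ⟨j, rfl⟩ : ∃ j', j = j' + 1 := ⟨j - 1, by omega⟩
    cases i with
    | zero =>
      rw [List.drop_succ_cons, List.drop_zero]
      exact chkTails_spec hc.1 j (by simpa using hj)
    | succ i =>
      rw [List.drop_succ_cons, List.drop_succ_cons]
      exact ih hc.2 (by omega) (by simpa using hj)

theorem base_chk : chkAll ((fun l => List.flatMap h l)^[11] [0]) = true := by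
  decide +kernel

theorem base {i j k : ℕ} (hij : i < j) (hk : j + k < 233) (heq : ∀ t < k, v (i + t) = v (j + t))
    (hne : v (i + k) ≠ v (j + k)) : k ≤ 55 := by
  have h1 := base_chk
  rw [← W_iter, show Nat.fib (11 + 2) = 233 by decide] at h1
  have h2 := chkAll_spec h1 hij (by rw [W_length]; omega)
  have key : ∀ a b, a + b < 233 → ∀ hh : b < ((W 0 233).drop a).length,
      ((W 0 233).drop a)[b] = v (a + b) := by
    intro a b _ hh
    simp [W]
  have hl1 : k < ((W 0 233).drop i).length := by rw [List.length_drop, W_length]; omega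
  have hl2 : k < ((W 0 233).drop j).length := by rw [List.length_drop, W_length]; omega
  have := chk_spec h2 hl1 hl2 (fun t ht => by
    rw [key _ _ (by omega), key _ _ (by omega)]
    exact heq t ht) (by
    rw [key _ _ (by omega), key _ _ (by omega)]
    exact hne)
  omega

/-! ### The induction -/

theorem W_agree {i j m : ℕ} (h1 : W i m = W j m) : ∀ t < m, v (i + t) = v (j + t) := by
  intro t ht
  have h2 : (W i m)[t]'(by rw [W_length]; exact ht) = (W j m)[t]'(by rw [W_length]; exact ht) := by
    simp only [h1]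
  simpa [W] using h2

theorem agree_W {i j m : ℕ} (h1 : ∀ t < m, v (i + t) = v (j + t)) : W i m = W j m :=
  List.map_congr_left fun t ht => h1 t (List.mem_range.1 ht)

/-- Images of agreeing windows. -/
theorem image_agree {i j q : ℕ} (h1 : ∀ t < q, v (i + t) = v (j + t)) :
    sh (i + q) - sh i = sh (j + q) - sh j ∧
      ∀ t < sh (i + q) - sh i, v (sh i + t) = v (sh j + t) := by
  have h2 := flat_W i q
  rw [agree_W h1, flat_W] at h2
  have h3 := congrArg List.length h2
  rw [W_length, W_length] at h3
  refine ⟨h3.symm, ?_⟩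
  rw [h3] at h2
  exact W_agree h2.symm

theorem letter_of_image {n m : ℕ} (h1 : v (sh n) = v (sh m)) (h2 : v (sh n + 1) = v (sh m + 1)) :
    v n = v m := by
  have key : ∀ n, 2 ∈ n.zeckendorf ↔ ¬ (v (sh n + 1) = 1 ∨ v (sh n + 1) = 3) := by
    intro n
    by_cases hn : 2 ∈ n.zeckendorf
    · have h3 := sh_succ_of_mem hn
      rw [← h3, ← mem_iff]
      simp [hn, not_mem_z_sh]
    · rw [← mem_iff, z_sh_one hn]
      simp [hn]
  have h3 : 2 ∈ n.zeckendorf ↔ 2 ∈ m.zeckendorf := by rw [key n, key m, h2]
  have e1 := h_v_of_mem (n := n)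
  have e2 := h_v_of_mem (n := m)
  have e3 := h_v_of_not_mem (n := n)
  have e4 := h_v_of_not_mem (n := m)
  have hinj : ∀ a b : Fin 4, h a = h b → a = b := by decide
  apply hinj
  by_cases hn : 2 ∈ n.zeckendorf
  · rw [e1 hn, e2 (h3.1 hn), h1]
  · rw [e3 hn, e4 (fun h => hn (h3.2 h)), h1, h2]

/-- The bound `φ ^ n * 60.25 - 5.25` for the length of the repeated words in the prefix of length
`F_{13 + n}`. -/
theorem main_ind (n : ℕ) : ∀ i j k : ℕ, i < j → j + k < Nat.fib (13 + n) →
    (∀ t < k, v (i + t) = v (j + t)) → v (i + k) ≠ v (j + k) →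
    (k : ℝ) ≤ Real.goldenRatio ^ n * 60.25 - 5.25 := by
  have b1 := ρ_lb
  have b2 := ρ_ub
  have b3 := φ_eq
  induction n with
  | zero =>
    intro i j k hij hk heq hne
    rw [show Nat.fib (13 + 0) = 233 by decide] at hk
    have h1 := base hij hk heq hne
    have : (k : ℝ) ≤ 55 := by exact_mod_cast h1
    norm_num
    linarith
  | succ n ih =>
    intro i j k hij hk heq hne
    have hpow : (1 : ℝ) ≤ Real.goldenRatio ^ n := one_le_pow₀ (by linarith)
    rcases Nat.eq_zero_or_pos k with rfl | hk0
    · have : (1 : ℝ) ≤ Real.goldenRatio ^ (n + 1) := one_le_pow₀ (by linarith)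
      push_cast
      linarith
    -- the first block starts
    obtain ⟨i', j', o, ho, hi', hj'⟩ : ∃ i' j' o, o ≤ 1 ∧ sh i' = i + o ∧ sh j' = j + o := by
      have hv := heq 0 hk0
      rw [add_zero, add_zero] at hv
      have hmem : 2 ∈ i.zeckendorf ↔ 2 ∈ j.zeckendorf := by rw [mem_iff, mem_iff, hv]
      rcases exists_block i with ⟨a, ha⟩ | ⟨a, ha, ha2⟩
      · have h1 : 2 ∉ i.zeckendorf := by rw [ha]; exact not_mem_z_sh a
        rcases exists_block j with ⟨b, hb⟩ | ⟨b, hb, hb2⟩
        · exact ⟨a, b, 0, by omega, by omega, by omega⟩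
        · exfalso
          rw [hmem, hb2, z_sh_one hb] at h1
          simp at h1
      · have h1 : 2 ∈ i.zeckendorf := by
          rw [ha2, z_sh_one ha]
          simp
        rcases exists_block j with ⟨b, hb⟩ | ⟨b, hb, hb2⟩
        · exfalso
          rw [hmem, hb] at h1
          exact not_mem_z_sh b h1
        · refine ⟨a + 1, b + 1, 1, le_rfl, ?_, ?_⟩
          · rw [sh_succ_of_not_mem ha]
            omega
          · rw [sh_succ_of_not_mem hb]
            omega
    have hij' : i' < j' := sh_strictMono.lt_iff_lt.1 (by omega)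
    -- a mismatch of the preimages
    have hex : ∃ q, v (i' + q) ≠ v (j' + q) := by
      by_contra hcon
      push Not at hcon
      obtain ⟨h1, h2⟩ := image_agree (i := i') (j := j') (q := k + 1) fun t _ => hcon t
      have h3 : i' + (k + 1) ≤ sh (i' + (k + 1)) := sh_strictMono.le_apply
      have h4 : ∀ a m : ℕ, sh a + m ≤ sh (a + m) := by
        intro a m
        induction m with
        | zero => simp
        | succ m ihm =>
          have := sh_strictMono (Nat.lt_succ_self (a + m))
          simp only [Nat.succ_eq_add_one] at this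
          rw [← add_assoc, ← add_assoc]
          omega
      have h5 := h4 i' (k + 1)
      have h6 := h2 (k - o) (by omega)
      rw [hi', hj', show i + o + (k - o) = i + k by omega,
        show j + o + (k - o) = j + k by omega] at h6
      exact hne h6
    classical
    obtain ⟨q, hq1, hq2⟩ : ∃ q, v (i' + q) ≠ v (j' + q) ∧ ∀ t < q, v (i' + t) = v (j' + t) := by
      refine ⟨Nat.find hex, Nat.find_spec hex, fun t ht => ?_⟩
      by_contra hcon
      exact Nat.find_min hex ht hcon
    obtain ⟨h1, h2⟩ := image_agree hq2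
    have m1 : sh i' ≤ sh (i' + q) := sh_strictMono.monotone (by omega)
    have m2 : sh j' ≤ sh (j' + q) := sh_strictMono.monotone (by omega)
    have h3 : sh (i' + q) ≤ i + k := by
      by_contra hcon
      have h6 := h2 (k - o) (by omega)
      rw [hi', hj', show i + o + (k - o) = i + k by omega,
        show j + o + (k - o) = j + k by omega] at h6
      exact hne h6
    have h4 : i + k ≤ sh (i' + q) + 1 := by
      by_contra hcon
      refine hq1 (letter_of_image ?_ ?_)
      · have := heq (sh (i' + q) - i) (by omega)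
        rw [show i + (sh (i' + q) - i) = sh (i' + q) by omega,
          show j + (sh (i' + q) - i) = sh (j' + q) by omega] at this
        exact this
      · have := heq (sh (i' + q) + 1 - i) (by omega)
        rw [show i + (sh (i' + q) + 1 - i) = sh (i' + q) + 1 by omega,
          show j + (sh (i' + q) + 1 - i) = sh (j' + q) + 1 by omega] at this
        exact this
    have h5 : j' + q < Nat.fib (13 + n) := by
      apply sh_strictMono.lt_iff_lt.1
      rw [sh_fib _ (by omega), show 13 + n + 1 = 13 + (n + 1) by ring]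
      omega
    have h6 := ih i' j' q hij' h5 hq2 hq1
    have e1 := abs_le.1 (sh_bound i')
    have e2 := abs_le.1 (sh_bound (i' + q))
    have e3 : (k : ℝ) ≤ sh (i' + q) - sh i' + 2 := by
      have : k + sh i' ≤ sh (i' + q) + 2 := by omega
      have : (k : ℝ) + sh i' ≤ sh (i' + q) + 2 := by exact_mod_cast this
      linarith
    push_cast at e2
    have e4 : (k : ℝ) ≤ Real.goldenRatio * q + 2 * ρ + 2 := by
      nlinarith [e1.1, e1.2, e2.1, e2.2]
    have e5 : Real.goldenRatio * q ≤ Real.goldenRatio * (Real.goldenRatio ^ n * 60.25 - 5.25) :=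
      mul_le_mul_of_nonneg_left h6 (by linarith)
    have e6 : Real.goldenRatio ^ (n + 1) = Real.goldenRatio * Real.goldenRatio ^ n := by ring
    rw [e6]
    nlinarith

/-! ### The maximum order complexity -/

theorem M_le {N k : ℕ} (hk : ∀ i j, i < j → j + k < N → (∀ t < k, S (i + t) = S (j + t)) →
    S (i + k) = S (j + k)) : M S N ≤ k := by
  classical
  refine Nat.sInf_le ?_
  refine ⟨fun w => if hw : ∃ i, i + k < N ∧ ∀ t : Fin k, S (i + t) = w t then S (hw.choose + k)
    else 0, fun i hi => ?_⟩
  have hw : ∃ i', i' + k < N ∧ ∀ t : Fin k, S (i' + t) = S (i + t) := ⟨i, by omega, fun _ => rfl⟩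
  beta_reduce
  rw [dif_pos hw]
  have hs := hw.choose_spec
  generalize hw.choose = i' at hs
  obtain ⟨h1, h2⟩ := hs
  rcases lt_trichotomy i i' with h3 | rfl | h3
  · exact hk i i' h3 h1 fun t ht => (h2 ⟨t, ht⟩).symm
  · rfl
  · exact (hk i' i h3 (by omega) fun t ht => h2 ⟨t, ht⟩).symm

theorem M_bound (n : ℕ) : (M S (Nat.fib (13 + n)) : ℝ) ≤ Real.goldenRatio ^ n * 60.25 := by
  have b1 := ρ_lb
  have b3 := φ_eq
  have hpow : (1 : ℝ) ≤ Real.goldenRatio ^ n := one_le_pow₀ (by linarith)
  obtain ⟨K, hK⟩ : ∃ K : ℕ, K = ⌊Real.goldenRatio ^ n * 60.25⌋₊ := ⟨_, rfl⟩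
  have hKle : (K : ℝ) ≤ Real.goldenRatio ^ n * 60.25 := by
    rw [hK]
    exact Nat.floor_le (by positivity)
  have hKgt : Real.goldenRatio ^ n * 60.25 < K + 1 := by
    rw [hK]
    exact Nat.lt_floor_add_one _
  refine le_trans ?_ hKle
  have hK5 : 5 ≤ K := by
    have : (4 : ℝ) < K := by linarith
    have : 4 < K := by exact_mod_cast this
    omega
  have : M S (Nat.fib (13 + n)) ≤ K := by
    refine M_le fun i j hij hjk heq => ?_
    by_contra hne
    -- the words agree from the fifth position on
    have h1 : ∀ t < K - 4, v (i + 4 + t) = v (j + 4 + t) := by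
      intro t ht
      have := recog (i := i + t) (j := j + t) fun s hs => by
        rw [add_assoc, add_assoc]
        exact heq (t + s) (by omega)
      rw [show i + 4 + t = i + t + 4 by ring, show j + 4 + t = j + t + 4 by ring]
      exact this
    have h2 : v (i + 4 + (K - 4)) ≠ v (j + 4 + (K - 4)) := by
      rw [show i + 4 + (K - 4) = i + K by omega, show j + 4 + (K - 4) = j + K by omega]
      intro h3
      rw [S_eq, S_eq, h3] at hne
      exact hne rfl
    have h3 := main_ind n (i + 4) (j + 4) (K - 4) (by omega) (by omega) h1 h2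
    rw [Nat.cast_sub (by omega)] at h3
    push_cast at h3
    linarith
  exact_mod_cast this

theorem fib_bound (n : ℕ) : Real.goldenRatio ^ n * 232 ≤ Nat.fib (13 + n) := by
  -- `F_{13+n} ≥ φ^n (232 + ρ^n)`
  have b1 := ρ_lb
  have b2 := ρ_ub
  have b3 := φ_eq
  have b4 := ρ_sq
  have key : ∀ n : ℕ, Real.goldenRatio ^ n * 232 + ρ ^ n ≤ Nat.fib (13 + n) := by
    intro n
    induction n with
    | zero =>
      rw [show Nat.fib (13 + 0) = 233 by decide]
      norm_num
    | succ n ih =>
      have h1 := Real.fib_succ_sub_goldenRatio_mul_fib (13 + n)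
      have h2 : |Real.goldenConj ^ (13 + n)| = ρ ^ (13 + n) := by rw [abs_pow, conj_abs]
      have h3 := neg_abs_le (Real.goldenConj ^ (13 + n))
      rw [h2] at h3
      have h4 : ρ ^ (13 + n) ≤ ρ ^ (1 + n) * ρ ^ 2 := by
        rw [← pow_add]
        exact pow_le_pow_of_le_one ρ_pos.le ρ_lt.le (by omega)
      have h5 : Real.goldenRatio * ρ = 1 := by
        rw [b3]
        linear_combination b4
      have h6 : Real.goldenRatio * ρ ^ n = ρ ^ n + ρ ^ (1 + n) := by
        rw [b3]
        ring
      have h7 := pow_pos ρ_pos n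
      have h8 : ρ ^ (1 + n) = ρ * ρ ^ n := by ring
      have h9 : ρ ^ (n + 1) = ρ * ρ ^ n := by ring
      rw [show 13 + (n + 1) = 13 + n + 1 by ring]
      have e6 : Real.goldenRatio ^ (n + 1) = Real.goldenRatio * Real.goldenRatio ^ n := by ring
      have e7 : Real.goldenRatio * (Real.goldenRatio ^ n * 232 + ρ ^ n) ≤
          Real.goldenRatio * Nat.fib (13 + n) := mul_le_mul_of_nonneg_left ih (by linarith)
      rw [e6, h9]
      rw [b4, h8] at h4
      nlinarith
  have := key n
  have h7 := pow_pos ρ_pos n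
  linarith

/-- The maximum order complexity of the Zeckendorf parity sequence is not asymptotic to
`N / (1 + φ ^ 2)`; indeed `M(N) ≤ 0.26 N` whenever `N` is a Fibonacci number `F_m`, `m ≥ 13`. -/
theorem result : (¬ Filter.Tendsto (fun N : ℕ => (M S N : ℝ) / N) Filter.atTop
      (nhds (1 / (1 + Real.goldenRatio ^ 2)))) ∧
    ∀ m, 13 ≤ m → (M S (Nat.fib m) : ℝ) ≤ 0.26 * Nat.fib m := by
  have b1 := ρ_lb
  have b2 := ρ_ub
  have b3 := φ_eq
  have b4 := ρ_sq
  have key : ∀ m, 13 ≤ m → (M S (Nat.fib m) : ℝ) ≤ 0.26 * Nat.fib m := by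
    intro m hm
    obtain ⟨n, rfl⟩ : ∃ n, m = 13 + n := ⟨m - 13, by omega⟩
    have h1 := M_bound n
    have h2 := fib_bound n
    have hpow : (1 : ℝ) ≤ Real.goldenRatio ^ n := one_le_pow₀ (by linarith)
    linarith
  refine ⟨fun hlim => ?_, key⟩
  have hfib : Filter.Tendsto (fun n => Nat.fib (n + 13)) Filter.atTop Filter.atTop := by
    refine Filter.tendsto_atTop_mono (f := fun n => n) (fun n => ?_) Filter.tendsto_id
    have := Nat.le_fib_add_one (n + 13)
    omega
  have h1 := hlim.comp hfib
  have h2 : (1 : ℝ) / (1 + Real.goldenRatio ^ 2) ≤ 0.26 := by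
    refine le_of_tendsto h1 (Filter.Eventually.of_forall fun n => ?_)
    simp only [Function.comp]
    have h3 := key (n + 13) (by omega)
    have h4 : (0 : ℝ) < Nat.fib (n + 13) := by exact_mod_cast Nat.fib_pos.2 (by omega)
    rw [div_le_iff₀ h4]
    exact h3
  rw [b3, div_le_iff₀ (by positivity)] at h2
  nlinarith

end Pool.Agent.Results.MP_b74c76_co.NotAsymptotic
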